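import Pool.Agent.Work.MP_363f1e_co.Final

/-!
# Local realizability does not characterize chirotopes (MP_363f1e_co, Q1, negative answer)

For `d = 3` and eight indices there is a locally realizable map which is not the chirotope of an
arrangement of double pseudoplanes of real projective 3-space.

Members: a fat one `{|t| = nu}`, thin double planes `v`, `c_0, ..., c_4`, and a thin double plane
`h_i` which is allowed to depend on an index `i`.  All quadruples that contain `h_i` and that are
used are of one fixed isomorphism class, so the choice of `i` is not seen by the quadruples, and any
six indices admit a choice.  In an arrangement with these quadruples the members `h, c_0, ..., c_4`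
cut a component of `Γ_0 ∩ Γ_v` (a circle) in the end points of six chords whose crossing graph is
the wheel with five spokes, which is not the crossing graph of chords of a circle.
-/

namespace Pool.Agent.Results.MP_363f1e_co.LocalChirotopes

open Pool.Agent.Work.MP_363f1e_co

/-- For `d = 3` and eight indices there is a locally realizable map `χ` on the 4-subsets that is not
the chirotope of any arrangement of double pseudoplanes of `RP^3` indexed by the whole set. -/
theorem result : ∃ χ : ClassMap 3 (Fin 8), LocallyRealizable χ ∧ ¬ IsChirotope χ :=
  final

end Pool.Agent.Results.MP_363f1e_co.LocalChirotopes
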